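import Pool.Agent.X119.Cong

/-!
# The conjectured congruence for `S'_p` fails, e.g. for `p = 7, 13, 19, 31, 37`
-/

set_option autoImplicit false

namespace Pool.Agent.Results.MP_b67006_nt.FailsAsStated

open Finset Pool.Agent.X119.Cong

/-- `S_p` -/
def S (p : ℕ) : ℚ := ∑ k ∈ range ((p - 1) / 2 + 1), ((2 * k).choose k : ℚ) / 16 ^ k * T (2 * k) 2 3

/-- `S'_p` -/
def S' (p : ℕ) : ℚ := ∑ k ∈ range p, ((2 * k).choose k : ℚ) / 16 ^ k * T (2 * k) 4 (-3)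

/-- the conjectured value, for `p ≡ 1 (mod 3)` -/
def R (p : ℕ) (x : ℤ) : ℚ := jacobiSym (-1) p * (2 * x - p / (2 * x))

/-- a form of `S'` for computations -/
def S'' (p : ℕ) : ℚ := ∑ k ∈ range p, (ch (2 * k) k : ℚ) / 16 ^ k * T' (2 * k) 4 (-3)

theorem S_eq (p : ℕ) : S' p = S'' p := by
  unfold S' S''
  refine sum_congr rfl fun k _ => ?_
  rw [T_eq, ch_eq]

theorem fail7 : ¬ Cong 7 2 (S' 7) (R 7 (-2)) := by
  rw [S_eq]
  refine not_cong' (z := 4 - 7 / 4) ?_ (by decide +kernel)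
  have h1 : jacobiSym (-1) 7 = -1 := by norm_num
  rw [R, h1]
  norm_num

theorem fail13 : ¬ Cong 13 2 (S' 13) (R 13 1) := by
  rw [S_eq]
  refine not_cong' (z := 2 - 13 / 2) ?_ (by decide +kernel)
  have h1 : jacobiSym (-1) 13 = 1 := by norm_num
  rw [R, h1]
  norm_num

theorem fail19 : ¬ Cong 19 2 (S' 19) (R 19 4) := by
  rw [S_eq]
  refine not_cong' (z := -(8 - 19 / 8)) ?_ (by decide +kernel)
  have h1 : jacobiSym (-1) 19 = -1 := by norm_num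
  rw [R, h1]
  norm_num

theorem fail31 : ¬ Cong 31 2 (S' 31) (R 31 (-2)) := by
  rw [S_eq]
  refine not_cong' (z := -(-4 + 31 / 4)) ?_ (by decide +kernel)
  have h1 : jacobiSym (-1) 31 = -1 := by norm_num
  rw [R, h1]
  norm_num

/-- The congruence `S'_p ≡ (-1/p) (2 x - p / (2 x)) (mod p ^ 2)` fails for `p = 7, 13, 19, 31`, so that the assertion of Q1
is false. -/
theorem result :
    (¬ Cong 7 2 (S' 7) (R 7 (-2)) ∧ ¬ Cong 13 2 (S' 13) (R 13 1) ∧ ¬ Cong 19 2 (S' 19) (R 19 4) ∧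
      ¬ Cong 31 2 (S' 31) (R 31 (-2))) ∧
    ¬ ∀ p : ℕ, p.Prime → 3 < p →
      (p % 3 = 1 → ∀ x y : ℤ, (p : ℤ) = x ^ 2 + 3 * y ^ 2 → x % 3 = 1 →
        Cong p 2 (S p) (S' p) ∧ Cong p 2 (S' p) (R p x)) ∧
      (p % 3 = 2 → Cong p 1 (S p) (S' p) ∧ Cong p 1 (S' p) 0) :=
  ⟨⟨fail7, fail13, fail19, fail31⟩, fun h => fail7
    ((h 7 (by norm_num) (by norm_num)).1 (by norm_num) (-2) 1 (by norm_num) (by norm_num)).2⟩

end Pool.Agent.Results.MP_b67006_nt.FailsAsStated
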